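import Pool.Agent.Helper41.CE.F19
import Pool.Agent.Helper41.CE.CU59
import Pool.Agent.Helper41.CE.CU61

set_option autoImplicit false

/-!
# Semiclassical sharpness of nonlocal eigenvalue bounds: the full answer

All definitions of the operator, of the algebraic multiplicity, of the eigenvalue sums and of
sharpness up to `ħ^ε` are in `Pool/Agent/Helper41/CE/FDefs.lean` (and `Defs.lean`).
-/

namespace Pool.Agent.Results.MP_497a12_mp.FullAnswer

open Pool.Agent.Helper41.CE

/-- Labels of the six cases. -/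
inductive Case
  | a
  | b
  | c
  | d
  | e
  | f

/-- The truncation that belongs to a case. -/
def Case.trunc : Case → Trunc
  | .a => .all
  | .b => .all
  | .c => .le
  | .d => .ge
  | .e => .le
  | .f => .ge

/-- The parameter ranges of the cases (`m` is the dimension). -/
def Case.Range : Case → ℕ → ℝ → ℝ → ℝ → Prop
  | .a, m, α, β, γ => 2 ≤ m ∧ α = 1 / 2 ∧ β = 1 ∧ 0 < γ ∧ γ < m / (2 * (2 * m - 1))
  | .b, m, α, β, γ => 2 ≤ m ∧ (m - 1) * γ / (m / 2 - γ) < α ∧ β = 1 ∧
      m / (2 * (2 * m - 1)) ≤ γ ∧ γ ≤ 1 / 2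
  | .c, m, α, β, γ => 1 ≤ m ∧ α = β ∧ 2 * γ < β ∧ 1 / 2 < γ
  | .d, m, α, β, γ => 1 ≤ m ∧ 0 < α ∧ α < γ * (γ + m / 2) ∧ 2 * γ < β ∧ 1 / 2 < γ
  | .e, m, α, β, γ => 1 ≤ m ∧ α = γ + m / 2 ∧ β = γ + m / 2 ∧ 0 < γ ∧ (m = 1 → 1 / 2 ≤ γ)
  | .f, m, α, β, γ => 1 ≤ m ∧ γ < α ∧ β = γ + m / 2 ∧ 0 < γ ∧ (m = 1 → 1 / 2 ≤ γ)

/-- The classification for all exponents `α, β > 0` and all three kinds of sums: sharpness fails
exactly for the truncation `(T≥)` with `γ ≤ 1/2`. -/
theorem classification (τ : Trunc) (d : ℕ) (α β γ : ℝ) (hd : 1 ≤ d) (hα : 0 < α) (hβ : 0 < β)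
    (hγ : 0 < γ) (h1 : d = 1 → 1 / 2 ≤ γ) :
    SharpUpToEps d α β γ τ ↔ ¬ (τ = .ge ∧ γ ≤ 1 / 2) := by
  have hq : 1 ≤ γ + (d : ℝ) / 2 := by
    rcases Nat.lt_or_ge 1 d with h2 | h2
    · have : (2 : ℝ) ≤ d := by exact_mod_cast h2
      linarith
    · have h3 : d = 1 := le_antisymm h2 hd
      have h4 := h1 h3
      rw [h3]
      norm_num
      linarith
  cases τ with
  | all => simpa using (main_sharpF d hd α β γ hα hγ hq).1
  | le => simpa using (main_sharpF d hd α β γ hα hγ hq).2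
  | ge =>
    simp only [true_and, not_le]
    constructor
    · intro h
      by_contra hle
      rw [not_lt] at hle
      exact T2 d hd α β γ hγ hle (fun h3 => le_antisymm hle (h1 h3)) h
    · intro h
      obtain ⟨n, rfl⟩ : ∃ n, d = n + 1 := ⟨d - 1, by omega⟩
      exact T1 n α β γ hα hβ h

/-- The answer for the six cases. -/
theorem cases_answer (k : Case) (d : ℕ) (α β γ : ℝ) (h : k.Range d α β γ) :
    SharpUpToEps d α β γ k.trunc ↔ ¬ (k = Case.f ∧ γ ≤ 1 / 2) := by
  cases k with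
  | a =>
    obtain ⟨hd, rfl, rfl, hγ, -⟩ := h
    rw [classification _ d _ _ γ (by omega) (by norm_num) (by norm_num) hγ (by omega)]
    simp [Case.trunc]
  | b =>
    obtain ⟨hd, hα, rfl, hγ, hγ2⟩ := h
    have hd' : (2 : ℝ) ≤ d := by exact_mod_cast hd
    have h1 : (0 : ℝ) < d / (2 * (2 * d - 1)) := div_pos (by linarith) (by linarith)
    have hg : 0 < γ := lt_of_lt_of_le h1 hγ
    have h2 : (0 : ℝ) < (d - 1) * γ / (d / 2 - γ) :=
      div_pos (mul_pos (by linarith) hg) (by linarith)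
    rw [classification _ d _ _ γ (by omega) (by linarith) (by norm_num) hg (by omega)]
    simp [Case.trunc]
  | c =>
    obtain ⟨hd, rfl, hβ, hγ⟩ := h
    rw [classification _ d _ _ γ hd (by linarith) (by linarith) (by linarith)
      (fun _ => by linarith)]
    simp [Case.trunc]
  | d =>
    obtain ⟨hd, hα, -, hβ, hγ⟩ := h
    rw [classification _ d _ _ γ hd hα (by linarith) (by linarith) (fun _ => by linarith)]
    simp only [Case.trunc, true_and, reduceCtorEq, false_and, not_false_eq_true, iff_true, not_le]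
    exact hγ
  | e =>
    obtain ⟨hd, rfl, rfl, hγ, h1⟩ := h
    have hd' : (1 : ℝ) ≤ d := by exact_mod_cast hd
    rw [classification _ d _ _ γ hd (by linarith) (by linarith) hγ h1]
    simp [Case.trunc]
  | f =>
    obtain ⟨hd, hα, rfl, hγ, h1⟩ := h
    have hd' : (1 : ℝ) ≤ d := by exact_mod_cast hd
    rw [classification _ d _ _ γ hd (by linarith) (by linarith) hγ h1]
    simp [Case.trunc]

/-- The answer. First part: for all parameters in the ranges (a)-(f), the bound with the truncation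
of its case is sharp up to `ħ^ε` for every `ε > 0`, except exactly in case (f) with `γ ≤ 1/2`.
Second part: the same classification for all `α, β > 0` and all three kinds of sums. -/
theorem result :
    (∀ (k : Case) (d : ℕ) (α β γ : ℝ), k.Range d α β γ →
      (SharpUpToEps d α β γ k.trunc ↔ ¬ (k = Case.f ∧ γ ≤ 1 / 2))) ∧
    (∀ (τ : Trunc) (d : ℕ) (α β γ : ℝ), 1 ≤ d → 0 < α → 0 < β → 0 < γ → (d = 1 → 1 / 2 ≤ γ) →
      (SharpUpToEps d α β γ τ ↔ ¬ (τ = .ge ∧ γ ≤ 1 / 2))) :=
  ⟨cases_answer, classification⟩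

end Pool.Agent.Results.MP_497a12_mp.FullAnswer
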