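import Pool.Agent.H631.LT.Main

/-! Sharpness up to `ħ^ε` of the eigenvalue bounds (*) in the cases (a), (b), (c), (e), for all
admissible dimensions and parameters: one real, nonpositive, compactly supported potential
`V ∈ L^{γ+d/2}` saturates the untruncated sum and the sum truncated by `|E|^γ ≤ N_γ(V, ħ)`,
for all `α, β > 0` simultaneously. -/

open MeasureTheory Filter Topology ENNReal
open scoped Laplacian

namespace Pool.Agent.Results.MP_497a12_mp.RealPotential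

noncomputable section

/-- Euclidean space of dimension `d`. -/
abbrev EE (d : ℕ) := EuclideanSpace ℝ (Fin d)

/-- The Hilbert space `L²(α; ℂ)` of classes of square integrable functions. -/
def LTwo (α : Type) [MeasureSpace α] : Type := Lp ℂ 2 (volume : Measure α)

instance instLTwoGroup (α : Type) [MeasureSpace α] : AddCommGroup (LTwo α) :=
  inferInstanceAs (AddCommGroup (Lp ℂ 2 (volume : Measure α)))

instance instLTwoModule (α : Type) [MeasureSpace α] : Module ℂ (LTwo α) :=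
  inferInstanceAs (Module ℂ (Lp ℂ 2 (volume : Measure α)))

/-- A function representing a class in `L²(α; ℂ)`. -/
def LTwo.fn {α : Type} [MeasureSpace α] (u : LTwo α) : α → ℂ :=
  AEEqFun.cast (Subtype.val (p := fun f => f ∈ Lp ℂ 2 (volume : Measure α)) u)

/-- The Hilbert space `L²(ℝ^d; ℂ)`. -/
def L2 (d : ℕ) : Type := LTwo (EE d)

instance instL2Group (d : ℕ) : AddCommGroup (L2 d) := instLTwoGroup (EE d)

instance instL2Module (d : ℕ) : Module ℂ (L2 d) := instLTwoModule (EE d)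

/-- A function on `ℝ^d` representing a class in `L²(ℝ^d; ℂ)`. -/
def L2.fn {d : ℕ} (u : L2 d) : EE d → ℂ := LTwo.fn (α := EE d) u

/-- Test functions: smooth and compactly supported. -/
def IsTestFn {d : ℕ} (φ : EE d → ℂ) : Prop := ContDiff ℝ (⊤ : ℕ∞) φ ∧ HasCompactSupport φ

/-- The `i`-th standard basis vector. -/
def bvec {d : ℕ} (i : Fin d) : EE d := EuclideanSpace.single i 1

/-- The partial derivative `∂_i φ`. -/
def pder {d : ℕ} (i : Fin d) (φ : EE d → ℂ) (x : EE d) : ℂ := fderiv ℝ φ x (bvec i)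

/-- `g` is the weak partial derivative `∂_i f`. -/
def IsWeakDer {d : ℕ} (i : Fin d) (f g : EE d → ℂ) : Prop :=
  ∀ φ : EE d → ℂ, IsTestFn φ → ∫ x, f x * pder i φ x = - ∫ x, g x * φ x

/-- `u` is in the Sobolev space `H¹`: all weak first partial derivatives are in `L²`. -/
def InH1 {d : ℕ} (u : L2 d) : Prop := ∀ i : Fin d, ∃ D : L2 d, IsWeakDer i u.fn D.fn

/-- The potential energy `∫ |V||u|²` is finite. -/
def FinPot {d : ℕ} (V f : EE d → ℂ) : Prop := Integrable (fun x => ‖V x‖ * ‖f x‖ ^ 2)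

/-- `-ħ²Δf + Vf = g` in the sense of distributions. -/
def WeakEq {d : ℕ} (ħ : ℝ) (V f g : EE d → ℂ) : Prop :=
  ∀ φ : EE d → ℂ, IsTestFn φ →
    ∫ x, (f x * (-((ħ : ℂ) ^ 2) * (Δ φ) x) + V x * f x * φ x) = ∫ x, g x * φ x

/-- The graph of the Schrodinger operator `H = -ħ²Δ + V` in `L²(ℝ^d)`: `u ∈ H¹`, `|V||u|²` is
integrable, and `-ħ²Δu + Vu = g` in the sense of distributions. -/
def SchrRel {d : ℕ} (ħ : ℝ) (V : EE d → ℂ) (u g : L2 d) : Prop :=
  InH1 u ∧ FinPot V u.fn ∧ WeakEq ħ V u.fn g.fn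

/-- The root space (generalised eigenspace) of a linear relation `R` at `E`: all `v` which start a
chain `v = f 0, f 1, ..., f n = 0` with `(R - E) f j = f (j + 1)`. -/
def rootSp {X : Type} [AddCommGroup X] [Module ℂ X] (R : X → X → Prop) (E : ℂ) : Submodule ℂ X :=
  Submodule.span ℂ {v | ∃ (n : ℕ) (f : ℕ → X), f 0 = v ∧ f n = 0 ∧
    ∀ j, j < n → R (f j) (E • f j + f (j + 1))}

/-- The algebraic multiplicity of `E` as an eigenvalue of `-ħ²Δ + V` (zero if `E` is not an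
eigenvalue): the dimension of the root space. -/
def algMult {d : ℕ} (ħ : ℝ) (V : EE d → ℂ) (E : ℂ) : ℕ∞ :=
  Cardinal.toENat (Module.rank ℂ (rootSp (SchrRel ħ V) E))

/-- The half line `[0, ∞)` in the complex plane. -/
def halfLine : Set ℂ := {z | 0 ≤ z.re ∧ z.im = 0}

/-- `δ(E) = dist(E, [0, ∞))`. -/
def dst (E : ℂ) : ℝ := Metric.infDist E halfLine

/-- `N_γ(V, ħ) = ħ^{-d} ∫ |V|^{γ+d/2}`. -/
def Nq {d : ℕ} (γ ħ : ℝ) (V : EE d → ℂ) : ℝ :=
  ħ ^ (-(d : ℝ)) * ∫ x, ‖V x‖ ^ (γ + (d : ℝ) / 2)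

/-- The three ways of summing: all eigenvalues, only `|E|^γ ≤ N`, only `|E|^γ ≥ N`. -/
inductive Trunc | all | le | ge

/-- The eigenvalues which are kept. -/
def keep {d : ℕ} (t : Trunc) (γ ħ : ℝ) (V : EE d → ℂ) (E : ℂ) : Prop :=
  match t with
  | .all => True
  | .le => ‖E‖ ^ γ ≤ Nq γ ħ V
  | .ge => Nq γ ħ V ≤ ‖E‖ ^ γ

/-- The weight `|E|^α (δ(E)/|E|)^β`. -/
def wt (α β : ℝ) (E : ℂ) : ℝ := ‖E‖ ^ α * (dst E / ‖E‖) ^ β

open Classical in
/-- The (truncated) left side of (*): the sum of `|E|^α (δ(E)/|E|)^β` over the eigenvalues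
`E ∈ ℂ ∖ [0,∞)` of `-ħ²Δ + V` which are kept, counted with algebraic multiplicity. -/
def lhs {d : ℕ} (t : Trunc) (α β γ ħ : ℝ) (V : EE d → ℂ) : ℝ≥0∞ :=
  ∑' E : ℂ, if E ∈ halfLine ∨ ¬ keep t γ ħ V E then 0 else
    (algMult ħ V E : ℝ≥0∞) * ENNReal.ofReal (wt α β E)

/-- `V` shows that (*) with truncation `t` is sharp up to `ħ^ε`: for every `ε > 0` there are
`c, ħ₀ > 0` such that the (truncated) left side is at least `c ħ^ε N_γ(V,ħ)^{α/γ}` for all
`0 < ħ < ħ₀`. -/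
def SharpWith {d : ℕ} (t : Trunc) (α β γ : ℝ) (V : EE d → ℂ) : Prop :=
  ∀ ε : ℝ, 0 < ε → ∃ c : ℝ, 0 < c ∧ ∃ ħ₀ : ℝ, 0 < ħ₀ ∧ ∀ ħ : ℝ, 0 < ħ → ħ < ħ₀ →
    ENNReal.ofReal (c * ħ ^ ε * (Nq γ ħ V) ^ (α / γ)) ≤ lhs t α β γ ħ V

/-- `V ∈ L^{γ+d/2}`, and `V` is not almost everywhere zero. -/
def Adm {d : ℕ} (γ : ℝ) (V : EE d → ℂ) : Prop :=
  ¬ (V =ᵐ[volume] 0) ∧ MemLp V (ENNReal.ofReal (γ + (d : ℝ) / 2)) volume

/-- (*) with truncation `t` is sharp up to `ħ^ε`: there is one nonzero `V ∈ L^{γ+d/2}` with the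
above property. -/
def Sharp (d : ℕ) (t : Trunc) (α β γ : ℝ) : Prop :=
  ∃ V : EE d → ℂ, Adm γ V ∧ SharpWith t α β γ V

/-- `V` is real, nonpositive, measurable and compactly supported. -/
def RealWell {d : ℕ} (V : EE d → ℂ) : Prop :=
  Measurable V ∧ HasCompactSupport V ∧ ∀ x, (V x).im = 0 ∧ (V x).re ≤ 0

/-- The names of the six cases of the problem. -/
inductive Case | a | b | c | d | e | f

/-- The parameter ranges (a)-(f) of the problem. -/
def InRange (s : Case) (d : ℕ) (α β γ : ℝ) : Prop :=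
  match s with
  | .a => α = 1 / 2 ∧ β = 1 ∧ 0 < γ ∧ γ < (d : ℝ) / (2 * (2 * d - 1)) ∧ 2 ≤ d
  | .b => ((d : ℝ) - 1) * γ / ((d : ℝ) / 2 - γ) < α ∧ β = 1 ∧ (d : ℝ) / (2 * (2 * d - 1)) ≤ γ ∧
      γ ≤ 1 / 2 ∧ 2 ≤ d
  | .c => α = β ∧ 2 * γ < β ∧ 1 / 2 < γ ∧ 1 ≤ d
  | .d => 0 < α ∧ α < γ * (γ + (d : ℝ) / 2) ∧ 2 * γ < β ∧ 1 / 2 < γ ∧ 1 ≤ d
  | .e => α = β ∧ β = γ + (d : ℝ) / 2 ∧ 0 < γ ∧ (d = 1 → 1 / 2 ≤ γ) ∧ 1 ≤ d
  | .f => γ < α ∧ β = γ + (d : ℝ) / 2 ∧ 0 < γ ∧ (d = 1 → 1 / 2 ≤ γ) ∧ 1 ≤ d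

/-- The truncation which belongs to each case. -/
def truncOf (s : Case) : Trunc :=
  match s with
  | .a => .all
  | .b => .all
  | .c => .le
  | .d => .ge
  | .e => .le
  | .f => .ge

/-! ### Proofs -/

theorem infDist_neg (e : ℝ) (he : 0 < e) : Metric.infDist ((-e : ℝ) : ℂ) halfLine = e := by
  have h0 : (0 : ℂ) ∈ halfLine := by simp [halfLine]
  apply le_antisymm
  · refine (Metric.infDist_le_dist_of_mem h0).trans ?_
    rw [dist_zero_right, Complex.norm_real, Real.norm_eq_abs, abs_neg, abs_of_pos he]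
  · refine (Metric.le_infDist ⟨0, h0⟩).2 fun z hz => ?_
    rw [Complex.dist_eq]
    refine le_trans ?_ (Complex.abs_re_le_norm _)
    have : (((-e : ℝ) : ℂ) - z).re = -e - z.re := by simp
    rw [this, abs_of_nonpos (by linarith [hz.1])]
    linarith [hz.1]

theorem algMult_pos {d : ℕ} (ħ : ℝ) (V : EE d → ℂ) (E : ℂ) (u : L2 d) (hu : u ≠ 0)
    (h : SchrRel ħ V u (E • u)) : 1 ≤ algMult ħ V E := by
  have hmem : u ∈ rootSp (SchrRel ħ V) E := by
    refine Submodule.subset_span ⟨1, fun n => if n = 0 then u else 0, by simp, by simp, ?_⟩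
    intro j hj
    have : j = 0 := by omega
    subst this
    simpa using h
  have hpos : (1 : Cardinal) ≤ Module.rank ℂ (rootSp (SchrRel ħ V) E) := by
    rw [Cardinal.one_le_iff_ne_zero]
    intro h0
    have := rank_zero_iff.1 h0
    have h1 := this.elim (⟨u, hmem⟩ : rootSp (SchrRel ħ V) E) 0
    exact hu (congrArg Subtype.val h1)
  unfold algMult
  have := Cardinal.toENat.monotone' hpos
  simpa using this

/-- one eigenvalue bounds the sum from below -/
theorem lhs_ge {d : ℕ} (t : Trunc) (α β γ ħ : ℝ) (V : EE d → ℂ) (E : ℂ) (hE : E ∉ halfLine)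
    (hk : keep t γ ħ V E) (h1 : 1 ≤ algMult ħ V E) :
    ENNReal.ofReal (‖E‖ ^ α * (Metric.infDist E halfLine / ‖E‖) ^ β) ≤ lhs t α β γ ħ V := by
  classical
  unfold lhs wt dst
  refine le_trans ?_ (ENNReal.le_tsum E)
  rw [if_neg (by push Not; exact ⟨hE, hk⟩)]
  calc ENNReal.ofReal (‖E‖ ^ α * (Metric.infDist E halfLine / ‖E‖) ^ β)
      = 1 * ENNReal.ofReal (‖E‖ ^ α * (Metric.infDist E halfLine / ‖E‖) ^ β) := (one_mul _).symm
    _ ≤ _ := by
        gcongr
        exact_mod_cast h1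

theorem real_case (d : ℕ) (hd : 1 ≤ d) (γ : ℝ) (hγ : 0 < γ) (h1 : d = 1 → 1 / 2 ≤ γ) :
    ∃ V : EE d → ℂ, RealWell V ∧ Adm γ V ∧
      ∀ α β : ℝ, 0 < α → 0 < β → ∀ t : Trunc, t ≠ Trunc.ge → SharpWith t α β γ V := by
  obtain ⟨hWm, hW0, hWc, -, -, -, -⟩ := LTS.WW_prop d hd γ hγ
  obtain ⟨hmem, hint, hpos⟩ := LTS.WW_mem d hd γ hγ
  have hp : 0 < γ + (d : ℝ) / 2 := by positivity
  set V : EE d → ℂ := fun x => -((LTS.WW d γ x : ℝ) : ℂ) with hV
  have hnorm : ∀ x, ‖V x‖ = LTS.WW d γ x := fun x => by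
    rw [hV]; simp only [norm_neg, Complex.norm_real]; exact Real.norm_of_nonneg (hW0 x)
  refine ⟨V, ⟨(Complex.measurable_ofReal.comp hWm).neg, ?_, fun x => ⟨by simp [hV], by
    simpa [hV] using hW0 x⟩⟩, ⟨?_, hmem⟩, ?_⟩
  · refine HasCompactSupport.of_support_subset_isCompact (isCompact_closedBall (0 : EE d) 1)
      fun x hx => ?_
    rw [mem_closedBall_zero_iff]
    by_contra hx1
    exact hx (by rw [hV]; simp only [neg_eq_zero, Complex.ofReal_eq_zero]; exact hWc x (by linarith))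
  · intro h0
    have : ∫ x, (LTS.WW d γ x) ^ (γ + (d : ℝ) / 2) = 0 := by
      rw [← integral_zero (EE d) ℝ (μ := volume)]
      refine integral_congr_ae ?_
      filter_upwards [h0] with x hx
      have : LTS.WW d γ x = 0 := by
        rw [← hnorm x, hx]; simp
      rw [this, Real.zero_rpow hp.ne']
    linarith
  · intro α β hα hβ t ht ε hε
    set I₀ := ∫ x : EE d, (LTS.WW d γ x) ^ (γ + (d : ℝ) / 2) with hI₀
    obtain ⟨c, hc, ħ₀, hħ₀, hcore⟩ := LTS.core d hd γ hγ h1 (ε / α) (by positivity)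
    have hNq : ∀ ħ : ℝ, Nq γ ħ V = ħ ^ (-(d : ℝ)) * I₀ := fun ħ => by
      unfold Nq
      rw [hI₀]
      congr 1
      refine integral_congr_ae (Eventually.of_forall fun x => ?_)
      simp only
      rw [hnorm x]
    refine ⟨c ^ α / I₀ ^ (α / γ), by positivity, ħ₀, hħ₀, fun ħ hħ hlt => ?_⟩
    obtain ⟨e, u, hu, he, hle, hge, hD, hI, hw⟩ := hcore ħ hħ hlt
    have hEn : ‖((-e : ℝ) : ℂ)‖ = e := by
      rw [Complex.norm_real, Real.norm_eq_abs, abs_neg, abs_of_pos he]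
    have hnot : ((-e : ℝ) : ℂ) ∉ halfLine := by
      intro hh
      have := hh.1
      simp at this
      linarith
    have hkeep : keep t γ ħ V ((-e : ℝ) : ℂ) := by
      cases t with
      | all => trivial
      | le =>
        show ‖((-e : ℝ) : ℂ)‖ ^ γ ≤ Nq γ ħ V
        rw [hEn, hNq]; exact hle
      | ge => exact absurd rfl ht
    have hrel : SchrRel (d := d) ħ V u (((-e : ℝ) : ℂ) • u : LTS.HH d) := by
      refine ⟨hD, ?_, fun φ hφ => ?_⟩
      · show Integrable (fun x => ‖V x‖ * ‖(u : EE d → ℂ) x‖ ^ 2)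
        refine hI.congr (Eventually.of_forall fun x => ?_)
        simp only [hnorm x]
      · obtain ⟨hi, heq⟩ := hw φ hφ
        obtain ⟨hl1, hl2⟩ := LTS.wf_lap φ hφ
        have hLc : Continuous (fun x => -((ħ : ℂ) ^ 2) * (Δ φ) x) := continuous_const.mul hl1
        have hLs : HasCompactSupport (fun x => -((ħ : ℂ) ^ 2) * (Δ φ) x) := hl2.mul_left
        have hi1 : Integrable (fun x => (u : EE d → ℂ) x * (-((ħ : ℂ) ^ 2) * (Δ φ) x)) :=
          MemLp.integrable_mul (p := 2) (q := 2) (Lp.memLp u) (hLc.memLp_of_hasCompactSupport hLs)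
        have hi2 : Integrable (fun x => V x * (u : EE d → ℂ) x * φ x) := by
          refine hi.neg.congr (Eventually.of_forall fun x => ?_)
          simp only [hV, Pi.neg_apply]
          ring
        show ∫ x, ((u : EE d → ℂ) x * (-((ħ : ℂ) ^ 2) * (Δ φ) x) +
          V x * (u : EE d → ℂ) x * φ x) = ∫ x, ((((-e : ℝ) : ℂ) • u : LTS.HH d) : EE d → ℂ) x * φ x
        rw [integral_add hi1 hi2]
        have e1 : ∫ x, V x * (u : EE d → ℂ) x * φ x =
            - ∫ x, (LTS.WW d γ x : ℂ) * (u : EE d → ℂ) x * φ x := by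
          rw [← integral_neg]
          refine integral_congr_ae (Eventually.of_forall fun x => ?_)
          simp only [hV]
          ring
        rw [e1, ← sub_eq_add_neg, heq, ← integral_const_mul]
        refine integral_congr_ae ?_
        filter_upwards [Lp.coeFn_smul ((-e : ℝ) : ℂ) u] with x hx
        rw [hx, Pi.smul_apply, smul_eq_mul, mul_assoc]
    refine le_trans ?_ (lhs_ge t α β γ ħ V _ hnot hkeep (algMult_pos ħ V _ u hu hrel))
    apply ENNReal.ofReal_le_ofReal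
    rw [infDist_neg e he, hEn, div_self he.ne', Real.one_rpow, mul_one, hNq,
      Real.mul_rpow (by positivity) hpos.le, ← Real.rpow_mul hħ.le]
    have h3 : (c * ħ ^ (ε / α - (d : ℝ) / γ)) ^ α ≤ e ^ α :=
      Real.rpow_le_rpow (by positivity) hge hα.le
    rw [Real.mul_rpow hc.le (by positivity), ← Real.rpow_mul hħ.le] at h3
    refine le_trans (le_of_eq ?_) h3
    have h4 : I₀ ^ (α / γ) ≠ 0 := (Real.rpow_pos_of_pos hpos _).ne'
    have h5 : (ε / α - (d : ℝ) / γ) * α = ε + -(d : ℝ) * (α / γ) := by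
      field_simp
      ring
    rw [h5, Real.rpow_add hħ]
    field_simp

/-- **Main theorem.** Let `d ≥ 1`, `γ > 0`, and `γ ≥ 1/2` if `d = 1`. There is one potential `V`
which is real, nonpositive, measurable, compactly supported, not a.e. zero and in `L^{γ+d/2}`, such
that for all `α, β > 0` the inequality (*) is saturated by `V` up to `ħ^ε` for every `ε > 0`, both
without truncation and with the truncation `|E|^γ ≤ N`. In particular (*) is sharp up to `ħ^ε` for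
all parameters in the ranges (a), (b), (c) and (e). -/
theorem result (d : ℕ) (hd : 1 ≤ d) :
    (∀ γ : ℝ, 0 < γ → (d = 1 → 1 / 2 ≤ γ) →
      ∃ V : EE d → ℂ, RealWell V ∧ Adm γ V ∧
        ∀ α β : ℝ, 0 < α → 0 < β → ∀ t : Trunc, t ≠ Trunc.ge → SharpWith t α β γ V) ∧
    ∀ (s : Case) (α β γ : ℝ), InRange s d α β γ →
      s = Case.a ∨ s = Case.b ∨ s = Case.c ∨ s = Case.e → Sharp d (truncOf s) α β γ := by
  refine ⟨fun γ hγ h1 => real_case d hd γ hγ h1, ?_⟩
  have main : ∀ (t : Trunc) (α β γ : ℝ), t ≠ Trunc.ge → 0 < α → 0 < β → 0 < γ →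
      (d = 1 → 1 / 2 ≤ γ) → Sharp d t α β γ := by
    intro t α β γ ht hα hβ hγ h1
    obtain ⟨V, -, hA, h⟩ := real_case d hd γ hγ h1
    exact ⟨V, hA, h α β hα hβ t ht⟩
  intro s α β γ hr hs
  have hd' : (1 : ℝ) ≤ d := by exact_mod_cast hd
  rcases hs with rfl | rfl | rfl | rfl
  · obtain ⟨hα, hβ, hγ, -, h2⟩ := hr
    exact main _ _ _ _ (by simp [truncOf]) (by rw [hα]; norm_num) (by rw [hβ]; norm_num) hγ
      (by omega)
  · obtain ⟨hα, hβ, hγ, hγ2, h2⟩ := hr
    have h2' : (2 : ℝ) ≤ d := by exact_mod_cast h2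
    have hγ0 : 0 < γ := lt_of_lt_of_le (div_pos (by linarith) (by linarith)) hγ
    have hα0 : 0 < α := by
      refine lt_trans ?_ hα
      exact div_pos (mul_pos (by linarith) hγ0) (by linarith)
    exact main _ _ _ _ (by simp [truncOf]) hα0 (by rw [hβ]; norm_num) hγ0 (by omega)
  · obtain ⟨hα, hβ, hγ, -⟩ := hr
    have hγ0 : 0 < γ := by linarith
    exact main _ _ _ _ (by simp [truncOf]) (by linarith) (by linarith) hγ0 (fun _ => hγ.le)
  · obtain ⟨hα, hβ, hγ, h1, -⟩ := hr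
    have : 0 < β := by rw [hβ]; positivity
    exact main _ _ _ _ (by simp [truncOf]) (by rw [hα]; exact this) this hγ h1

end

end Pool.Agent.Results.MP_497a12_mp.RealPotential
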