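import Pool.Agent.Helper41.CE.F19

set_option autoImplicit false

/-!
# Semiclassical sharpness of nonlocal eigenvalue bounds: cases (a), (b), (c), (e)

All definitions of the operator, of the algebraic multiplicity, of the eigenvalue sums and of
sharpness up to `ħ^ε` are in `Pool/Agent/Helper41/CE/FDefs.lean` (and `Defs.lean`).
-/

namespace Pool.Agent.Results.MP_497a12_mp.SharpABCE

open Pool.Agent.Helper41.CE

/-- Labels of the four cases treated here. -/
inductive Case
  | a
  | b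
  | c
  | e

/-- The truncation that belongs to a case. -/
def Case.trunc : Case → Trunc
  | .a => .all
  | .b => .all
  | .c => .le
  | .e => .le

/-- The parameter ranges of the cases. -/
def Case.Range : Case → ℕ → ℝ → ℝ → ℝ → Prop
  | .a, d, α, β, γ => 2 ≤ d ∧ α = 1 / 2 ∧ β = 1 ∧ 0 < γ ∧ γ < d / (2 * (2 * d - 1))
  | .b, d, α, β, γ => 2 ≤ d ∧ (d - 1) * γ / (d / 2 - γ) < α ∧ β = 1 ∧
      d / (2 * (2 * d - 1)) ≤ γ ∧ γ ≤ 1 / 2
  | .c, d, α, β, γ => 1 ≤ d ∧ α = β ∧ 2 * γ < β ∧ 1 / 2 < γ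
  | .e, d, α, β, γ => 1 ≤ d ∧ α = γ + d / 2 ∧ β = γ + d / 2 ∧ 0 < γ ∧ (d = 1 → 1 / 2 ≤ γ)

/-- In each of the cases (a), (b), (c), (e), for every dimension and all parameters in the range
of the case, the bound is sharp up to `ħ^ε` for every `ε > 0`. -/
theorem result (k : Case) (d : ℕ) (α β γ : ℝ) (h : k.Range d α β γ) :
    SharpUpToEps d α β γ k.trunc := by
  cases k with
  | a =>
    obtain ⟨hd, rfl, rfl, hγ, -⟩ := h
    have hd' : (2 : ℝ) ≤ d := by exact_mod_cast hd
    exact (main_sharpF d (by omega) _ _ γ (by norm_num) hγ (by linarith)).1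
  | b =>
    obtain ⟨hd, hα, rfl, hγ, hγ2⟩ := h
    have hd' : (2 : ℝ) ≤ d := by exact_mod_cast hd
    have h1 : (0 : ℝ) < d / (2 * (2 * d - 1)) := div_pos (by linarith) (by linarith)
    have hg : 0 < γ := lt_of_lt_of_le h1 hγ
    have h2 : (0 : ℝ) < (d - 1) * γ / (d / 2 - γ) :=
      div_pos (mul_pos (by linarith) hg) (by linarith)
    exact (main_sharpF d (by omega) _ _ γ (by linarith) hg (by linarith)).1
  | c =>
    obtain ⟨hd, rfl, hβ, hγ⟩ := h
    have hd' : (1 : ℝ) ≤ d := by exact_mod_cast hd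
    exact (main_sharpF d hd _ _ γ (by linarith) (by linarith) (by linarith)).2
  | e =>
    obtain ⟨hd, rfl, rfl, hγ, h1⟩ := h
    have hd' : (1 : ℝ) ≤ d := by exact_mod_cast hd
    refine (main_sharpF d hd _ _ γ (by linarith) hγ ?_).2
    rcases Nat.lt_or_ge 1 d with h2 | h2
    · have : (2 : ℝ) ≤ d := by exact_mod_cast h2
      linarith
    · have h3 : d = 1 := le_antisymm h2 hd
      have := h1 h3
      linarith

end Pool.Agent.Results.MP_497a12_mp.SharpABCE
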